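import Pool.Agent.H731R3.QU.Homog

set_option autoImplicit false

/-!
# The rational Urysohn space and its isometry group
-/

namespace Pool.Agent.H731R3.QU

open Set Topology

/-- the countable metric space `(ℕ, dd)` -/
@[ext] structure ZZ where
  /-- underlying number -/
  v : ℕ

noncomputable instance : MetricSpace ZZ where
  dist x y := (dd x.v y.v : ℝ)
  dist_self x := by
    show ((dd x.v x.v : ℚ) : ℝ) = 0
    rw [dd_self]; simp
  dist_comm x y := by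
    show ((dd x.v y.v : ℚ) : ℝ) = (dd y.v x.v : ℚ)
    rw [dd_comm]
  dist_triangle x y z := by
    show ((dd x.v z.v : ℚ) : ℝ) ≤ (dd x.v y.v : ℚ) + (dd y.v z.v : ℚ)
    exact_mod_cast dd_tri x.v y.v z.v
  eq_of_dist_eq_zero := by
    intro x y h
    have h' : ((dd x.v y.v : ℚ) : ℝ) = 0 := h
    exact ZZ.ext (dd_sep x.v y.v (by exact_mod_cast h'))

theorem dist_ZZ (x y : ZZ) : dist x y = (dd x.v y.v : ℝ) := rfl

instance : Countable ZZ :=
  Function.Injective.countable (f := ZZ.v) (fun _ _ h => ZZ.ext h)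

theorem ZZ_rat (x y : ZZ) : ∃ q : ℚ, dist x y = (q : ℝ) := ⟨dd x.v y.v, rfl⟩

theorem ZZ_ext (A : Finset ZZ) (f : ZZ → ℚ) (_hf : ∀ a ∈ A, 0 < f a)
    (h : ∀ a ∈ A, ∀ b ∈ A, |(f a : ℝ) - (f b : ℝ)| ≤ dist a b ∧
      dist a b ≤ (f a : ℝ) + (f b : ℝ)) :
    ∃ x : ZZ, ∀ a ∈ A, dist x a = (f a : ℝ) := by
  obtain ⟨z, hz⟩ := dd_ext (A.toList.map (fun a => (a.v, f a))) (by
    intro p hp q hq
    rw [List.mem_map] at hp hq
    obtain ⟨a, ha, rfl⟩ := hp
    obtain ⟨b, hb, rfl⟩ := hq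
    rw [Finset.mem_toList] at ha hb
    obtain ⟨h1, h2⟩ := h a ha b hb
    rw [dist_ZZ] at h1 h2
    rw [abs_le] at h1
    constructor
    · show dd a.v b.v ≤ f a + f b
      exact_mod_cast h2
    · show f a ≤ f b + dd a.v b.v
      have h3 : (f a : ℝ) ≤ f b + dd a.v b.v := by linarith [h1.2]
      exact_mod_cast h3)
  refine ⟨⟨z⟩, fun a ha => ?_⟩
  have := hz (a.v, f a) (List.mem_map.2 ⟨a, Finset.mem_toList.2 ha, rfl⟩)
  rw [dist_ZZ]
  exact_mod_cast this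

/-- the isometry group -/
abbrev GG : Type := ZZ ≃ᵢ ZZ

/-- underlying function -/
noncomputable def ap (g : GG) (i : ℕ) : ℕ := (g ⟨i⟩).v

theorem ap_iso (g : GG) (i j : ℕ) : dd (ap g i) (ap g j) = dd i j := by
  have h := g.dist_eq ⟨i⟩ ⟨j⟩
  rw [dist_ZZ, dist_ZZ] at h
  exact_mod_cast h

theorem GG_ext {g h : GG} (e : ∀ i, ap g i = ap h i) : g = h :=
  IsometryEquiv.ext fun x => ZZ.ext (e x.v)

/-- constructor -/
noncomputable def mkG (f g : ℕ → ℕ) (h1 : ∀ i, f (g i) = i) (h2 : ∀ i, g (f i) = i)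
    (h3 : ∀ i j, dd (f i) (f j) = dd i j) : GG where
  toFun := fun x => ⟨f x.v⟩
  invFun := fun x => ⟨g x.v⟩
  left_inv := fun x => ZZ.ext (h2 x.v)
  right_inv := fun x => ZZ.ext (h1 x.v)
  isometry_toFun := by
    apply Isometry.of_dist_eq
    intro x y
    show ((dd (f x.v) (f y.v) : ℚ) : ℝ) = (dd x.v y.v : ℚ)
    rw [h3]

theorem ap_mkG (f g : ℕ → ℕ) (h1 : ∀ i, f (g i) = i) (h2 : ∀ i, g (f i) = i)
    (h3 : ∀ i j, dd (f i) (f j) = dd i j) (i : ℕ) : ap (mkG f g h1 h2 h3) i = f i := rfl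

theorem ap_mul (g h : GG) (i : ℕ) : ap (g * h) i = ap g (ap h i) := rfl
theorem ap_one (i : ℕ) : ap 1 i = i := rfl

theorem ap_inv_ap (g : GG) (i : ℕ) : ap g⁻¹ (ap g i) = i := by
  rw [← ap_mul, inv_mul_cancel, ap_one]
theorem ap_ap_inv (g : GG) (i : ℕ) : ap g (ap g⁻¹ i) = i := by
  rw [← ap_mul, mul_inv_cancel, ap_one]

/-- pointwise stabilizer of `{0, …, n-1}` -/
def stab (n : ℕ) : Subgroup GG where
  carrier := {g | ∀ i < n, ap g i = i}
  mul_mem' := by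
    intro a b ha hb i hi
    rw [ap_mul, hb i hi, ha i hi]
  one_mem' := fun i _ => rfl
  inv_mem' := by
    intro a ha i hi
    have := ap_inv_ap a i
    rw [ha i hi] at this
    exact this

theorem mem_stab (n : ℕ) (g : GG) : g ∈ stab n ↔ ∀ i < n, ap g i = i := Iff.rfl

/-- homogeneity, in group form -/
theorem exists_G (P : List (ℕ × ℕ)) (hP : Iso P) : ∃ g : GG, ∀ p ∈ P, ap g p.1 = p.2 := by
  obtain ⟨f, g, h1, h2, h3, h4, _⟩ := hom_ext (fun _ => []) (fun _ => 0) (by simp) univ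
    infinite_univ P hP
  exact ⟨mkG f g h1 h2 h3, h4⟩

theorem exists_G_fix (Y : ℕ → List ℕ) (D : ℕ → ℚ) (hY : ∀ j, ∀ y ∈ Y j, ∀ x < j, dd x y = D j)
    (N : Set ℕ) (hN : N.Infinite) (P : List (ℕ × ℕ)) (hP : Iso P) :
    ∃ g : GG, (∀ p ∈ P, ap g p.1 = p.2) ∧ ∃ N' ⊆ N, N'.Infinite ∧ ∀ j ∈ N', ∀ y ∈ Y j, ap g y = y := by
  obtain ⟨f, g, h1, h2, h3, h4, h5⟩ := hom_ext Y D hY N hN P hP
  exact ⟨mkG f g h1 h2 h3, h4, h5⟩

/-- homogeneity: functions on an initial segment -/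
theorem exists_G_fun (n : ℕ) (z : ℕ → ℕ) (h : ∀ a < n, ∀ b < n, dd (z a) (z b) = dd a b) :
    ∃ g : GG, ∀ a < n, ap g a = z a := by
  obtain ⟨g, hg⟩ := exists_G ((List.range n).map (fun a => (a, z a))) (by
    intro p hp q hq
    rw [List.mem_map] at hp hq
    obtain ⟨a, ha, rfl⟩ := hp
    obtain ⟨b, hb, rfl⟩ := hq
    rw [List.mem_range] at ha hb
    exact (h a ha b hb).symm)
  exact ⟨g, fun a ha => hg (a, z a) (List.mem_map.2 ⟨a, List.mem_range.2 ha, rfl⟩)⟩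

/-- two elements with the same type lie in the same double coset of `stab n` -/
theorem double_coset (n : ℕ) (g g' : GG)
    (h : ∀ a < n, ∀ b < n, dd a (ap g b) = dd a (ap g' b)) :
    ∃ α ∈ stab n, ∃ β ∈ stab n, g' = α * g * β := by
  obtain ⟨α, hα⟩ := exists_G ((List.range n).map (fun a => (a, a)) ++
      (List.range n).map (fun a => (ap g a, ap g' a))) (by
    intro p hp q hq
    rw [List.mem_append, List.mem_map, List.mem_map] at hp hq
    rcases hp with ⟨a, ha, rfl⟩ | ⟨a, ha, rfl⟩ <;> rcases hq with ⟨b, hb, rfl⟩ | ⟨b, hb, rfl⟩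
    · rfl
    · rw [List.mem_range] at ha hb
      exact h a ha b hb
    · rw [List.mem_range] at ha hb
      show dd (ap g a) b = dd (ap g' a) b
      rw [dd_comm _ b, dd_comm _ b]
      exact h b hb a ha
    · show dd (ap g a) (ap g b) = dd (ap g' a) (ap g' b)
      rw [ap_iso, ap_iso])
  have h1 : ∀ a < n, ap α a = a := fun a ha =>
    hα (a, a) (List.mem_append.2 (Or.inl (List.mem_map.2 ⟨a, List.mem_range.2 ha, rfl⟩)))
  have h2 : ∀ a < n, ap α (ap g a) = ap g' a := fun a ha =>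
    hα (ap g a, ap g' a) (List.mem_append.2 (Or.inr (List.mem_map.2 ⟨a, List.mem_range.2 ha, rfl⟩)))
  refine ⟨α, h1, (α * g)⁻¹ * g', ?_, by group⟩
  intro a ha
  rw [ap_mul, ← h2 a ha, ← ap_mul α g, ap_inv_ap]

end Pool.Agent.H731R3.QU
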