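import Pool.Agent.H753R3.OB.Lists
import Pool.Agent.H731R3.QU.Grp

set_option autoImplicit false

namespace Pool.Agent.H731R3.QU

open Pool.Agent.H753R3.OB (dI dI_comm dI_tri)

/-- the metric on copies of `{0, …, n-1}` indexed by lists -/
noncomputable def dT (n : ℕ) (K : ℚ) (p q : List ℕ × Fin n) : ℚ :=
  open Classical in
  if p.1 = q.1 then dd p.2 q.2 else K * ((max 1 (dI p.1 q.1) : ℕ) : ℚ)

theorem exists_copies (n : ℕ) (K : ℚ) (hn : 0 < n) (hK : ∀ a < n, ∀ b < n, dd a b ≤ K) :
    ∃ g : List ℕ → GG, ∀ l l' : List ℕ, l ≠ l' → ∀ a < n, ∀ b < n,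
      dd (ap (g l) a) (ap (g l') b) = K * ((max 1 (dI l l') : ℕ) : ℚ) := by
  classical
  have hK0 : 0 ≤ K := (dd_nonneg 0 0).trans (hK 0 hn 0 hn)
  have : Nonempty (List ℕ × Fin n) := ⟨([], ⟨0, hn⟩)⟩
  obtain ⟨e, he⟩ := embed (T := List ℕ × Fin n) (dT n K)
    (by intro p; unfold dT; rw [if_pos rfl, dd_self])
    (by
      intro p q
      unfold dT
      by_cases h : p.1 = q.1
      · rw [if_pos h, if_pos h.symm, dd_comm]
      · rw [if_neg h, if_neg (fun h' => h h'.symm), dI_comm])
    (by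
      intro p q r
      unfold dT
      have hb : ∀ a b : Fin n, dd a b ≤ K := fun a b => hK a a.2 b b.2
      have hb0 : ∀ a b : Fin n, 0 ≤ dd a b := fun a b => dd_nonneg a b
      have hpos : ∀ x : ℕ, K ≤ K * ((max 1 x : ℕ) : ℚ) := fun x => by
        have h1 : (1 : ℚ) ≤ ((max 1 x : ℕ) : ℚ) := by exact_mod_cast le_max_left 1 x
        nlinarith
      by_cases h : p.1 = q.1 <;> by_cases h' : q.1 = r.1
      · rw [if_pos h, if_pos h', if_pos (h.trans h')]
        exact dd_tri _ _ _
      · rw [if_pos h, if_neg h', if_neg (fun hh => h' (h ▸ hh)), h]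
        linarith [hb0 p.2 q.2]
      · rw [if_neg h, if_pos h', if_neg (fun hh => h (hh.trans h'.symm)), h']
        linarith [hb0 q.2 r.2]
      · rw [if_neg h, if_neg h']
        by_cases h'' : p.1 = r.1
        · rw [if_pos h'']
          have := hb p.2 r.2
          have h1 := hpos (dI p.1 q.1)
          have h2 := hpos (dI q.1 r.1)
          linarith
        · rw [if_neg h'', ← mul_add]
          apply mul_le_mul_of_nonneg_left _ hK0
          have := dI_tri p.1 q.1 r.1
          exact_mod_cast (show max 1 (dI p.1 r.1) ≤ max 1 (dI p.1 q.1) + max 1 (dI q.1 r.1) by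
            omega))
  have hg : ∀ l : List ℕ, ∃ g : GG, ∀ a (ha : a < n), ap g a = e (l, ⟨a, ha⟩) := by
    intro l
    obtain ⟨g, hg⟩ := exists_G_fun n (fun a => if h : a < n then e (l, ⟨a, h⟩) else 0) (by
      intro a ha b hb
      rw [dif_pos ha, dif_pos hb, he]
      unfold dT
      rw [if_pos rfl])
    exact ⟨g, fun a ha => by rw [hg a ha, dif_pos ha]⟩
  choose g hg using hg
  refine ⟨g, fun l l' hl a ha b hb => ?_⟩
  rw [hg l a ha, hg l' b hb, he]
  unfold dT
  rw [if_neg hl]

end Pool.Agent.H731R3.QU
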