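import Pool.Agent.H731R3.QU.Bounded

set_option autoImplicit false

/-!
# From bounded orbits to a fixed point
-/

namespace Pool.Agent.H731R3.QU

open Set Topology Filter
open Pool.Agent.H753R3.OB (wlim_exists)

theorem exists_zD (j : ℕ) : ∃ (D : ℚ) (g : GG), ∀ a < j, ∀ x < j, dd x (ap g a) = D := by
  obtain ⟨k, _, hk⟩ := exists_bound (List.range j)
  have hk0 : (0 : ℚ) ≤ k := Nat.cast_nonneg k
  obtain ⟨z, hz1, hz2⟩ := free_copy (List.range j) j k
    (fun x hx y hy => by have := hk x hx y hy; linarith)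
    (fun a ha b hb => by
      have := hk a (List.mem_range.2 ha) b (List.mem_range.2 hb); linarith)
  obtain ⟨g, hg⟩ := exists_G_fun j z hz1
  exact ⟨k, g, fun a ha x hx => by rw [hg a ha]; exact hz2 a ha x (List.mem_range.2 hx)⟩

/-- a countable dense family `h i`, with a sequence `g i` such that each `h i` is eventually
    conjugated into small stabilizers -/
theorem exists_dense : ∃ (h : ℕ → GG) (g : ℕ → GG) (J : ℕ → ℕ), (∀ i, i < J i) ∧
    (∀ i i', i < i' → (g i')⁻¹ * h i * g i' ∈ stab (J i')) ∧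
    (∀ (x : GG) (n : ℕ), ∃ i, x⁻¹ * h i ∈ stab n) := by
  classical
  choose D gz hD using exists_zD
  set Y : ℕ → List ℕ := fun j => (List.range j).map (ap (gz j)) with hYdef
  have hY : ∀ j, ∀ y ∈ Y j, ∀ x < j, dd x y = D j := by
    intro j y hy x hx
    obtain ⟨a, ha, rfl⟩ := List.mem_map.1 hy
    exact hD j a (List.mem_range.1 ha) x hx
  set P : ℕ → List (ℕ × ℕ) := fun i => if Iso ((Encodable.decode i : Option (List (ℕ × ℕ))).getD [])
    then (Encodable.decode i : Option (List (ℕ × ℕ))).getD [] else [] with hPdef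
  have hP : ∀ i, Iso (P i) := by
    intro i
    rw [hPdef]
    show Iso (ite _ _ _)
    split_ifs with hi
    · exact hi
    · intro p hp; exact absurd hp (by simp)
  have hstep : ∀ (i : ℕ) (N : {N : Set ℕ // N.Infinite}),
      ∃ (g : GG) (N' : {N : Set ℕ // N.Infinite}), (∀ p ∈ P i, ap g p.1 = p.2) ∧
        N'.1 ⊆ N.1 ∧ ∀ j ∈ N'.1, ∀ y ∈ Y j, ap g y = y := by
    intro i N
    obtain ⟨g, h1, N', h2, h3, h4⟩ := exists_G_fix Y D hY N.1 N.2 (P i) (hP i)
    exact ⟨g, ⟨N', h3⟩, h1, h2, h4⟩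
  choose hh nx H1 H2 H3 using hstep
  let NN : ℕ → {N : Set ℕ // N.Infinite} := fun i =>
    Nat.rec ⟨univ, infinite_univ⟩ (fun i N => nx i N) i
  have hNN : ∀ i, NN (i + 1) = nx i (NN i) := fun i => rfl
  have hmono : ∀ i i', i ≤ i' → (NN i').1 ⊆ (NN i).1 := by
    intro i i' hi
    induction i', hi using Nat.le_induction with
    | base => exact subset_rfl
    | succ k hk ih => exact (by rw [hNN]; exact H2 k (NN k) : (NN (k + 1)).1 ⊆ (NN k).1).trans ih
  have hJ : ∀ i, ∃ J, J ∈ (NN i).1 ∧ i < J := by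
    intro i
    obtain ⟨b, hb, hb'⟩ := (NN i).2.exists_gt i
    exact ⟨b, hb, hb'⟩
  choose J hJ1 hJ2 using hJ
  refine ⟨fun i => hh i (NN i), fun i => gz (J i), J, hJ2, ?_, ?_⟩
  · intro i i' hii a ha
    have h1 : J i' ∈ (NN (i + 1)).1 := hmono (i + 1) i' hii (hJ1 i')
    rw [hNN] at h1
    have h2 := H3 i (NN i) (J i') h1 (ap (gz (J i')) a)
      (List.mem_map.2 ⟨a, List.mem_range.2 ha, rfl⟩)
    rw [mul_assoc, ap_mul, ap_mul, h2, ap_inv_ap]
  · intro x n
    refine ⟨Encodable.encode ((List.range n).map (fun a => (a, ap x a))), ?_⟩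
    have h1 : Iso ((List.range n).map (fun a => (a, ap x a))) := by
      intro p hp q hq
      obtain ⟨a, _, rfl⟩ := List.mem_map.1 hp
      obtain ⟨b, _, rfl⟩ := List.mem_map.1 hq
      exact (ap_iso x a b).symm
    have h2 : P (Encodable.encode ((List.range n).map (fun a => (a, ap x a)))) =
        (List.range n).map (fun a => (a, ap x a)) := by
      rw [hPdef]
      simp only [Encodable.encodek, Option.getD_some]
      rw [if_pos h1]
    intro a ha
    have h3 := H1 (Encodable.encode ((List.range n).map (fun a => (a, ap x a))))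
      (NN (Encodable.encode ((List.range n).map (fun a => (a, ap x a))))) (a, ap x a)
      (by rw [h2]; exact List.mem_map.2 ⟨a, List.mem_range.2 ha, rfl⟩)
    rw [ap_mul, h3]
    exact ap_inv_ap x a

variable {E : Type} [NormedAddCommGroup E] [NormedSpace ℝ E]

theorem stab_mono {m n : ℕ} (h : m ≤ n) : stab n ≤ stab m := fun _ hg i hi => hg i (hi.trans_le h)

theorem exists_fixed (hr : Function.Surjective (NormedSpace.inclusionInDoubleDual ℝ E))
    (ρ : GG →* (E ≃ᵃⁱ[ℝ] E)) (hρ : Cont ρ) :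
    ∃ w : E, ∀ g : GG, ρ g w = w := by
  obtain ⟨M, hM⟩ := bounded_orbits hr ρ hρ (0 : E)
  obtain ⟨h, g, J, hJ, hconj, hdense⟩ := exists_dense
  set u : ℕ → E := fun i => ρ (g i) 0 with hu
  have hub : ∀ i, ‖u i‖ ≤ M := by
    intro i
    have := hM (g i)
    rw [dist_zero_right] at this
    exact this
  have hM0 : 0 ≤ M := (norm_nonneg _).trans (hub 0)
  obtain ⟨w, _, hw⟩ := wlim_exists hr (hyperfilter ℕ) u M hM0 hub
  have hle : ((hyperfilter ℕ : Ultrafilter ℕ) : Filter ℕ) ≤ atTop := by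
    rw [← Nat.cofinite_eq_atTop]; exact hyperfilter_le_cofinite
  -- almost invariance
  have hinv : ∀ i, Tendsto (fun i' => ρ (h i) (u i') - u i')
      ((hyperfilter ℕ : Ultrafilter ℕ) : Filter ℕ) (𝓝 0) := by
    intro i
    apply Tendsto.mono_left _ hle
    rw [tendsto_zero_iff_norm_tendsto_zero, Metric.tendsto_atTop]
    intro ε hε
    obtain ⟨n, _, hn⟩ := exists_stab ρ hρ (0 : E) (ε / 2) (by linarith)
    refine ⟨max n (i + 1), fun i' hi' => ?_⟩
    have h1 : i < i' := by have := le_max_right n (i + 1); omega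
    have h2 : n ≤ J i' := by have := le_max_left n (i + 1); have := hJ i'; omega
    have h3 := hn _ (stab_mono h2 (hconj i i' h1))
    have h4 : dist (ρ (g i') 0) (ρ (h i * g i') 0) ≤ ε / 2 := by
      rw [dist_R, ← mul_assoc]; exact h3
    rw [rho_mul, dist_comm, dist_eq_norm] at h4
    rw [Real.dist_eq, sub_zero, abs_norm]
    exact h4.trans_lt (by linarith)
  have hfix : ∀ i, ρ (h i) w = w := by
    intro i
    rw [SeparatingDual.eq_iff_forall_dual_eq (R := ℝ)]
    intro φ
    set L : E →L[ℝ] E := (ρ (h i)).linearIsometryEquiv.toContinuousLinearEquiv.toContinuousLinearMap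
      with hL
    have hLx : ∀ x : E, ρ (h i) x = L x + ρ (h i) 0 := by
      intro x
      have h0 := (ρ (h i)).map_vadd 0 x
      rw [vadd_eq_add, vadd_eq_add, add_zero] at h0
      exact h0
    have h1 : Tendsto (fun i' => φ (ρ (h i) (u i')))
        ((hyperfilter ℕ : Ultrafilter ℕ) : Filter ℕ) (𝓝 (φ (ρ (h i) w))) := by
      have h2 := hw (φ.comp L)
      have h3 : ∀ x, φ (ρ (h i) x) = (φ.comp L) x + φ (ρ (h i) 0) := by
        intro x
        rw [hLx x, map_add]; rfl
      rw [h3 w]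
      exact (h2.add_const (φ (ρ (h i) 0))).congr (fun i' => (h3 (u i')).symm)
    have h2 := hw φ
    have h3 : Tendsto (fun i' => φ (ρ (h i) (u i') - u i'))
        ((hyperfilter ℕ : Ultrafilter ℕ) : Filter ℕ) (𝓝 (φ 0)) :=
      (φ.continuous.tendsto 0).comp (hinv i)
    have h4 : Tendsto (fun i' => φ (ρ (h i) (u i') - u i'))
        ((hyperfilter ℕ : Ultrafilter ℕ) : Filter ℕ) (𝓝 (φ (ρ (h i) w) - φ w)) := by
      simp_rw [map_sub]
      exact h1.sub h2
    have h5 := tendsto_nhds_unique h3 h4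
    rw [map_zero] at h5
    linarith
  refine ⟨w, fun x => ?_⟩
  rw [← dist_eq_zero]
  apply le_antisymm _ dist_nonneg
  apply le_of_forall_pos_le_add
  intro ε hε
  obtain ⟨n, _, hn⟩ := exists_stab ρ hρ w ε hε
  obtain ⟨i, hi⟩ := hdense x n
  have h1 := hn _ hi
  rw [← dist_R, hfix i] at h1
  linarith

end Pool.Agent.H731R3.QU
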