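import Pool.Agent.H731R3.QU.Metric

set_option autoImplicit false

/-!
# Homogeneity of the metric: extension of finite partial isometries
-/

namespace Pool.Agent.H731R3.QU

open Set

/-- a list of pairs is a partial isometry -/
def Iso (P : List (ℕ × ℕ)) : Prop := ∀ p ∈ P, ∀ q ∈ P, dd p.1 q.1 = dd p.2 q.2

theorem iso_forth (P : List (ℕ × ℕ)) (hP : Iso P) (x : ℕ) : ∃ z, Iso ((x, z) :: P) := by
  obtain ⟨z, hz⟩ := dd_ext (P.map (fun q => (q.2, dd x q.1))) (by
    intro p hp q hq
    rw [List.mem_map] at hp hq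
    obtain ⟨p, hp, rfl⟩ := hp
    obtain ⟨q, hq, rfl⟩ := hq
    have h1 := hP p hp q hq
    have h2 := dd_tri p.1 x q.1
    have h3 := dd_comm p.1 x
    have h4 := dd_tri x q.1 p.1
    have h5 := dd_comm q.1 p.1
    constructor
    · show dd p.2 q.2 ≤ dd x p.1 + dd x q.1
      linarith
    · show dd x p.1 ≤ dd x q.1 + dd p.2 q.2
      linarith)
  have hz' : ∀ q ∈ P, dd z q.2 = dd x q.1 := fun q hq => hz _ (List.mem_map.2 ⟨q, hq, rfl⟩)
  refine ⟨z, ?_⟩
  intro p hp q hq
  rw [List.mem_cons] at hp hq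
  rcases hp with rfl | hp <;> rcases hq with rfl | hq
  · rw [dd_self, dd_self]
  · exact (hz' q hq).symm
  · rw [dd_comm p.1, dd_comm p.2]; exact (hz' p hp).symm
  · exact hP p hp q hq

theorem iso_swap (P : List (ℕ × ℕ)) (hP : Iso P) : Iso (P.map Prod.swap) := by
  intro p hp q hq
  rw [List.mem_map] at hp hq
  obtain ⟨p, hp, rfl⟩ := hp
  obtain ⟨q, hq, rfl⟩ := hq
  exact (hP p hp q hq).symm

theorem iso_back (P : List (ℕ × ℕ)) (hP : Iso P) (y : ℕ) : ∃ z, Iso ((z, y) :: P) := by
  obtain ⟨z, hz⟩ := iso_forth _ (iso_swap P hP) y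
  refine ⟨z, ?_⟩
  have := iso_swap _ hz
  simpa [List.map_map, Function.comp_def] using this

/-- a free copy of `{0, …, N-1}` at constant distance `D` from a list of points -/
theorem free_copy (S : List ℕ) (N : ℕ) (D : ℚ) (h1 : ∀ x ∈ S, ∀ y ∈ S, dd x y ≤ 2 * D)
    (h2 : ∀ a < N, ∀ b < N, dd a b ≤ 2 * D) :
    ∃ z : ℕ → ℕ, (∀ a < N, ∀ b < N, dd (z a) (z b) = dd a b) ∧
      ∀ a < N, ∀ x ∈ S, dd x (z a) = D := by
  induction N with
  | zero => exact ⟨id, by intro a ha; omega, by intro a ha; omega⟩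
  | succ N ih =>
    obtain ⟨z, hz1, hz2⟩ := ih (fun a ha b hb => h2 a (by omega) b (by omega))
    obtain ⟨w, hw⟩ := dd_ext (S.map (fun x => (x, D)) ++
        (List.range N).map (fun b => (z b, dd N b))) (by
      intro p hp q hq
      rw [List.mem_append, List.mem_map, List.mem_map] at hp hq
      rcases hp with ⟨x, hx, rfl⟩ | ⟨b, hb, rfl⟩ <;> rcases hq with ⟨y, hy, rfl⟩ | ⟨c, hc, rfl⟩
      · have := h1 x hx y hy
        have := dd_nonneg x y
        constructor
        · show dd x y ≤ D + D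
          linarith
        · show D ≤ D + dd x y
          linarith
      · rw [List.mem_range] at hc
        have := hz2 c hc x hx
        have := dd_nonneg N c
        constructor
        · show dd x (z c) ≤ D + dd N c
          linarith
        · show D ≤ dd N c + dd x (z c)
          linarith
      · rw [List.mem_range] at hb
        have := hz2 b hb y hy
        have h3 := dd_comm y (z b)
        have h4 := h2 N (by omega) b (by omega)
        have := dd_nonneg N b
        constructor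
        · show dd (z b) y ≤ dd N b + D
          linarith
        · show dd N b ≤ D + dd (z b) y
          linarith
      · rw [List.mem_range] at hb hc
        have := hz1 b hb c hc
        have h3 := dd_tri b N c
        have h4 := dd_comm b N
        have h5 := dd_tri N c b
        have h6 := dd_comm c b
        constructor
        · show dd (z b) (z c) ≤ dd N b + dd N c
          linarith
        · show dd N b ≤ dd N c + dd (z b) (z c)
          linarith)
    have hwS : ∀ x ∈ S, dd w x = D := fun x hx =>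
      hw (x, D) (List.mem_append.2 (Or.inl (List.mem_map.2 ⟨x, hx, rfl⟩)))
    have hwz : ∀ b < N, dd w (z b) = dd N b := fun b hb =>
      hw (z b, dd N b) (List.mem_append.2 (Or.inr (List.mem_map.2 ⟨b, List.mem_range.2 hb, rfl⟩)))
    refine ⟨fun a => if a = N then w else z a, ?_, ?_⟩
    · intro a ha b hb
      by_cases h : a = N <;> by_cases h' : b = N
      · subst h; subst h'; simp [dd_self]
      · subst h
        simp only [if_true, if_neg h']
        exact hwz b (by omega)
      · subst h'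
        simp only [if_true, if_neg h]
        rw [dd_comm, dd_comm a]
        exact hwz a (by omega)
      · simp only [if_neg h, if_neg h']
        exact hz1 a (by omega) b (by omega)
    · intro a ha x hx
      by_cases h : a = N
      · subst h
        simp only [if_true]
        rw [dd_comm]; exact hwS x hx
      · simp only [if_neg h]
        exact hz2 a (by omega) x hx

/-- one step of the back and forth -/
theorem step (Y : ℕ → List ℕ) (D : ℕ → ℚ) (hY : ∀ j, ∀ y ∈ Y j, ∀ x < j, dd x y = D j)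
    (N : Set ℕ) (hN : N.Infinite) (P : List (ℕ × ℕ)) (hP : Iso P) (t : ℕ) :
    ∃ P' : List (ℕ × ℕ), Iso P' ∧ (∀ p ∈ P, p ∈ P') ∧ (∃ z, (t, z) ∈ P') ∧ (∃ z, (z, t) ∈ P') ∧
      ∃ j ∈ N, t ≤ j ∧ ∀ y ∈ Y j, (y, y) ∈ P' := by
  obtain ⟨z, hz⟩ := iso_forth P hP t
  obtain ⟨z', hz'⟩ := iso_back _ hz t
  obtain ⟨b, hb⟩ : ∃ b, ∀ p ∈ ((z', t) :: (t, z) :: P), p.1 < b ∧ p.2 < b := by
    refine ⟨(((z', t) :: (t, z) :: P).map (fun p => p.1 + p.2)).sum + 1, fun p hp => ?_⟩
    have := List.single_le_sum (l := ((z', t) :: (t, z) :: P).map (fun p => p.1 + p.2)) (by simp)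
      (p.1 + p.2) (List.mem_map.2 ⟨p, hp, rfl⟩)
    omega
  obtain ⟨j, hjN, hj⟩ := hN.exists_gt (b + t)
  refine ⟨(Y j).map (fun y => (y, y)) ++ ((z', t) :: (t, z) :: P), ?_, ?_, ?_, ?_, j, hjN,
    by omega, ?_⟩
  · intro p hp q hq
    rw [List.mem_append] at hp hq
    rcases hp with hp | hp <;> rcases hq with hq | hq
    · rw [List.mem_map] at hp hq
      obtain ⟨y, hy, rfl⟩ := hp
      obtain ⟨y', hy', rfl⟩ := hq
      rfl
    · rw [List.mem_map] at hp
      obtain ⟨y, hy, rfl⟩ := hp
      have h1 := hb q hq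
      have h2 := hY j y hy q.1 (by omega)
      have h3 := hY j y hy q.2 (by omega)
      show dd y q.1 = dd y q.2
      rw [dd_comm y q.1, dd_comm y q.2, h2, h3]
    · rw [List.mem_map] at hq
      obtain ⟨y, hy, rfl⟩ := hq
      have h1 := hb p hp
      have h2 := hY j y hy p.1 (by omega)
      have h3 := hY j y hy p.2 (by omega)
      show dd p.1 y = dd p.2 y
      rw [h2, h3]
    · exact hz' p hp q hq
  · intro p hp
    exact List.mem_append.2 (Or.inr (List.mem_cons_of_mem _ (List.mem_cons_of_mem _ hp)))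
  · exact ⟨z, List.mem_append.2 (Or.inr (List.mem_cons_of_mem _ List.mem_cons_self))⟩
  · exact ⟨z', List.mem_append.2 (Or.inr List.mem_cons_self)⟩
  · intro y hy
    exact List.mem_append.2 (Or.inl (List.mem_map.2 ⟨y, hy, rfl⟩))

/-- finite partial isometries extend to isometric bijections, which may be chosen to fix infinitely
many of the lists `Y j` pointwise -/
theorem hom_ext (Y : ℕ → List ℕ) (D : ℕ → ℚ) (hY : ∀ j, ∀ y ∈ Y j, ∀ x < j, dd x y = D j)
    (N : Set ℕ) (hN : N.Infinite) (P : List (ℕ × ℕ)) (hP : Iso P) :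
    ∃ f g : ℕ → ℕ, (∀ i, f (g i) = i) ∧ (∀ i, g (f i) = i) ∧ (∀ i j, dd (f i) (f j) = dd i j) ∧
      (∀ p ∈ P, f p.1 = p.2) ∧
      ∃ N' ⊆ N, N'.Infinite ∧ ∀ j ∈ N', ∀ y ∈ Y j, f y = y := by
  classical
  let St := {P : List (ℕ × ℕ) // Iso P}
  let nx : St → ℕ → St := fun Q t => ⟨(step Y D hY N hN Q.1 Q.2 t).choose,
    (step Y D hY N hN Q.1 Q.2 t).choose_spec.1⟩
  let c : ℕ → St := fun n => Nat.rec ⟨P, hP⟩ (fun t Q => nx Q t) n
  have hc : ∀ t, c (t + 1) = nx (c t) t := fun t => rfl
  have hs : ∀ t, (∀ p ∈ (c t).1, p ∈ (c (t + 1)).1) ∧ (∃ z, (t, z) ∈ (c (t + 1)).1) ∧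
      (∃ z, (z, t) ∈ (c (t + 1)).1) ∧
      ∃ j ∈ N, t ≤ j ∧ ∀ y ∈ Y j, (y, y) ∈ (c (t + 1)).1 := by
    intro t
    exact (step Y D hY N hN (c t).1 (c t).2 t).choose_spec.2
  have hmono : ∀ s t, s ≤ t → ∀ p ∈ (c s).1, p ∈ (c t).1 := by
    intro s t hst
    induction t, hst using Nat.le_induction with
    | base => exact fun p hp => hp
    | succ t _ ih => exact fun p hp => (hs t).1 p (ih p hp)
  have hiso : ∀ s t, ∀ p ∈ (c s).1, ∀ q ∈ (c t).1, dd p.1 q.1 = dd p.2 q.2 := by
    intro s t p hp q hq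
    exact (c (max s t)).2 p (hmono _ _ (le_max_left _ _) p hp) q (hmono _ _ (le_max_right _ _) q hq)
  have hf : ∀ x, ∃ z, ∃ t, (x, z) ∈ (c t).1 := fun x => by
    obtain ⟨z, hz⟩ := (hs x).2.1
    exact ⟨z, x + 1, hz⟩
  have hg : ∀ y, ∃ z, ∃ t, (z, y) ∈ (c t).1 := fun y => by
    obtain ⟨z, hz⟩ := (hs y).2.2.1
    exact ⟨z, y + 1, hz⟩
  choose f hf using hf
  choose g hg using hg
  have uf : ∀ x z t, (x, z) ∈ (c t).1 → f x = z := by
    intro x z t h
    obtain ⟨s, hs'⟩ := hf x
    have := hiso s t _ hs' _ h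
    simp only [dd_self] at this
    exact dd_sep _ _ this.symm
  have ug : ∀ z y t, (z, y) ∈ (c t).1 → g y = z := by
    intro z y t h
    obtain ⟨s, hs'⟩ := hg y
    have := hiso s t _ hs' _ h
    simp only [dd_self] at this
    exact dd_sep _ _ this
  refine ⟨f, g, ?_, ?_, ?_, ?_, ?_⟩
  · intro i
    obtain ⟨s, h⟩ := hg i
    exact uf _ _ _ h
  · intro i
    obtain ⟨s, h⟩ := hf i
    exact ug _ _ _ h
  · intro i j
    obtain ⟨s, h⟩ := hf i
    obtain ⟨t, h'⟩ := hf j
    exact (hiso s t _ h _ h').symm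
  · intro p hp
    exact uf p.1 p.2 0 hp
  · refine ⟨{j | j ∈ N ∧ ∀ y ∈ Y j, f y = y}, fun j hj => hj.1, ?_, fun j hj => hj.2⟩
    rw [Set.infinite_iff_exists_gt]
    intro a
    obtain ⟨j, hjN, haj, hy⟩ := (hs (a + 1)).2.2.2
    exact ⟨j, ⟨hjN, fun y hy' => uf y y (a + 1 + 1) (hy y hy')⟩, by omega⟩

/-- embedding of a countable integer pseudometric -/
theorem embed_nat (δ : ℕ → ℕ → ℚ) (h0 : ∀ i, δ i i = 0) (hc : ∀ i j, δ i j = δ j i)
    (ht : ∀ i j k, δ i k ≤ δ i j + δ j k) : ∃ e : ℕ → ℕ, ∀ i j, dd (e i) (e j) = δ i j := by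
  classical
  have key : ∀ (e : ℕ → ℕ) (n : ℕ), (∀ i < n, ∀ j < n, dd (e i) (e j) = δ i j) →
      ∃ z, ∀ i < n, dd z (e i) = δ n i := by
    intro e n h
    obtain ⟨z, hz⟩ := dd_ext ((List.range n).map (fun i => (e i, δ n i))) (by
      intro p hp q hq
      rw [List.mem_map] at hp hq
      obtain ⟨i, hi, rfl⟩ := hp
      obtain ⟨j, hj, rfl⟩ := hq
      rw [List.mem_range] at hi hj
      have h1 := h i hi j hj
      have h2 := ht i n j
      have h3 := hc i n
      have h4 := ht n j i
      have h5 := hc j i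
      constructor
      · show dd (e i) (e j) ≤ δ n i + δ n j
        linarith
      · show δ n i ≤ δ n j + dd (e i) (e j)
        linarith)
    exact ⟨z, fun i hi => hz (e i, δ n i) (List.mem_map.2 ⟨i, List.mem_range.2 hi, rfl⟩)⟩
  let St := (n : ℕ) × {e : ℕ → ℕ // ∀ i < n, ∀ j < n, dd (e i) (e j) = δ i j}
  let b : (n : ℕ) → {e : ℕ → ℕ // ∀ i < n, ∀ j < n, dd (e i) (e j) = δ i j} := fun n =>
    Nat.rec ⟨id, fun i hi => absurd hi (Nat.not_lt_zero i)⟩
      (fun n E => ⟨Function.update E.1 n (key E.1 n E.2).choose, by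
        have hz := (key E.1 n E.2).choose_spec
        intro i hi j hj
        by_cases h : i = n <;> by_cases h' : j = n
        · subst h; subst h'; simp [dd_self, h0]
        · subst h
          rw [Function.update_self, Function.update_of_ne h']
          exact hz j (by omega)
        · subst h'
          rw [Function.update_self, Function.update_of_ne h, dd_comm, hc]
          exact hz i (by omega)
        · rw [Function.update_of_ne h, Function.update_of_ne h']
          exact E.2 i (by omega) j (by omega)⟩) n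
  have hb : ∀ n i, i < n → (b (n + 1)).1 i = (b n).1 i := by
    intro n i hi
    show Function.update (b n).1 n _ i = (b n).1 i
    rw [Function.update_of_ne (by omega)]
  have hb' : ∀ m n i, i < m → m ≤ n → (b n).1 i = (b m).1 i := by
    intro m n i him hmn
    induction n, hmn using Nat.le_induction with
    | base => rfl
    | succ n hn ih => rw [hb n i (by omega), ih]
  refine ⟨fun i => (b (i + 1)).1 i, fun i j => ?_⟩
  have h1 := (b (i + j + 1)).2 i (by omega) j (by omega)
  rw [hb' (i + 1) (i + j + 1) i (by omega) (by omega),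
    hb' (j + 1) (i + j + 1) j (by omega) (by omega)] at h1
  exact h1

/-- embedding of a countable integer pseudometric, general index type -/
theorem embed {T : Type} [Countable T] [Nonempty T] (δ : T → T → ℚ) (h0 : ∀ i, δ i i = 0)
    (hc : ∀ i j, δ i j = δ j i) (ht : ∀ i j k, δ i k ≤ δ i j + δ j k) :
    ∃ e : T → ℕ, ∀ i j, dd (e i) (e j) = δ i j := by
  obtain ⟨s, hs⟩ := exists_surjective_nat T
  obtain ⟨e, he⟩ := embed_nat (fun i j => δ (s i) (s j)) (fun i => h0 _) (fun i j => hc _ _)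
    (fun i j k => ht _ _ _)
  choose r hr using hs
  refine ⟨fun t => e (r t), fun i j => ?_⟩
  rw [he, hr, hr]

end Pool.Agent.H731R3.QU
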