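import Mathlib

set_option autoImplicit false

/-!
# The rational Urysohn metric on `ℕ` (after the integer metric of `Pool.Agent.H753R3.OB.Metric`)
-/

namespace Pool.Agent.H731R3.QU

open Set

/-- Katetov condition for a list of pairs (point, required distance). -/
def Kat (D : ℕ → ℕ → ℚ) (L : List (ℕ × ℚ)) : Prop :=
  ∀ p ∈ L, ∀ q ∈ L, D p.1 q.1 ≤ p.2 + q.2 ∧ p.2 ≤ q.2 + D p.1 q.1

/-- validity of a code at stage `n` -/
def Valid (D : ℕ → ℕ → ℚ) (L : List (ℕ × ℚ)) (n : ℕ) : Prop :=
  L ≠ [] ∧ (∀ p ∈ L, p.1 < n ∧ 0 < p.2) ∧ Kat D L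

theorem exists_min (L : List (ℕ × ℚ)) (hL : L ≠ []) (h : ℕ × ℚ → ℚ) :
    ∃ k, (∃ p ∈ L, k = h p) ∧ ∀ p ∈ L, k ≤ h p := by
  classical
  obtain ⟨p, hp, hmin⟩ := L.toFinset.exists_min_image h (by
    obtain ⟨p, hp⟩ := List.exists_mem_of_ne_nil L hL
    exact ⟨p, List.mem_toFinset.2 hp⟩)
  exact ⟨h p, ⟨p, List.mem_toFinset.1 hp, rfl⟩, fun q hq => hmin q (List.mem_toFinset.2 hq)⟩

open Classical in
/-- the distances of the new point `n` -/
noncomputable def row (D : ℕ → ℕ → ℚ) (L : List (ℕ × ℚ)) (n : ℕ) (m : ℕ) : ℚ :=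
  if h : Valid D L n then (exists_min L h.1 (fun p => p.2 + D p.1 m)).choose else 1 + D 0 m

/-- the code attached to `n` -/
def code (n : ℕ) : List (ℕ × ℚ) :=
  ((Encodable.decode (n.unpair.2) : Option (List (ℕ × ℚ)))).getD []

/-- stages -/
noncomputable def DD : ℕ → ℕ → ℕ → ℚ
  | 0 => fun _ _ => 0
  | n + 1 => fun x y =>
      if x < n ∧ y < n then DD n x y
      else if x = n ∧ y < n then row (DD n) (code n) n y
      else if y = n ∧ x < n then row (DD n) (code n) n x
      else 0

/-- metric axioms on the points below `n` -/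
structure IsM (D : ℕ → ℕ → ℚ) (n : ℕ) : Prop where
  comm : ∀ x y, x < n → y < n → D x y = D y x
  self : ∀ x, x < n → D x x = 0
  sep : ∀ x y, x < n → y < n → D x y = 0 → x = y
  tri : ∀ x y z, x < n → y < n → z < n → D x z ≤ D x y + D y z

theorem IsM.nonneg {D : ℕ → ℕ → ℚ} {n : ℕ} (h : IsM D n) (x y : ℕ) (hx : x < n) (hy : y < n) :
    0 ≤ D x y := by
  have h1 := h.tri x y x hx hy hx
  have h2 := h.comm x y hx hy
  have h3 := h.self x hx
  linarith

theorem row_spec (D : ℕ → ℕ → ℚ) (n : ℕ) (h : IsM D n) (L : List (ℕ × ℚ)) :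
    (∀ m, m < n → 0 < row D L n m) ∧
    (∀ m m', m < n → m' < n → row D L n m ≤ row D L n m' + D m m') ∧
    (∀ m m', m < n → m' < n → D m m' ≤ row D L n m + row D L n m') ∧
    (Valid D L n → ∀ p ∈ L, row D L n p.1 = p.2) := by
  classical
  by_cases hv : Valid D L n
  · have hr : ∀ m, row D L n m = (exists_min L hv.1 (fun p => p.2 + D p.1 m)).choose := by
      intro m; unfold row; rw [dif_pos hv]
    have hmem : ∀ m, ∃ p ∈ L, row D L n m = p.2 + D p.1 m := by
      intro m
      rw [hr m]
      exact (exists_min L hv.1 (fun p => p.2 + D p.1 m)).choose_spec.1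
    have hle : ∀ m, ∀ p ∈ L, row D L n m ≤ p.2 + D p.1 m := by
      intro m p hp
      rw [hr m]
      exact (exists_min L hv.1 (fun p => p.2 + D p.1 m)).choose_spec.2 p hp
    refine ⟨?_, ?_, ?_, ?_⟩
    · intro m hm
      obtain ⟨p, hp, e⟩ := hmem m
      have h1 := (hv.2.1 p hp)
      have h2 := h.nonneg p.1 m h1.1 hm
      linarith [h1.2]
    · intro m m' hm hm'
      obtain ⟨p, hp, e⟩ := hmem m'
      have h1 := hle m p hp
      have h2 := h.tri p.1 m' m (hv.2.1 p hp).1 hm' hm
      have h3 := h.comm m m' hm hm'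
      linarith
    · intro m m' hm hm'
      obtain ⟨p, hp, e⟩ := hmem m
      obtain ⟨q, hq, e'⟩ := hmem m'
      have hpn := (hv.2.1 p hp).1
      have hqn := (hv.2.1 q hq).1
      have h1 := (hv.2.2 p hp q hq).1
      have h2 := h.tri m p.1 m' hm hpn hm'
      have h3 := h.tri p.1 q.1 m' hpn hqn hm'
      have h4 := h.comm m p.1 hm hpn
      linarith
    · intro _ p hp
      have hpn := (hv.2.1 p hp).1
      have h1 := hle p.1 p hp
      rw [h.self p.1 hpn] at h1
      obtain ⟨q, hq, e⟩ := hmem p.1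
      have hqn := (hv.2.1 q hq).1
      have h2 := (hv.2.2 p hp q hq).2
      have h4 := h.comm p.1 q.1 hpn hqn
      linarith
  · have hr : ∀ m, row D L n m = 1 + D 0 m := by
      intro m; unfold row; rw [dif_neg hv]
    refine ⟨?_, ?_, ?_, fun hh => absurd hh hv⟩
    · intro m hm; rw [hr]
      have := h.nonneg 0 m (by omega) hm
      linarith
    · intro m m' hm hm'
      rw [hr, hr]
      have h2 := h.tri 0 m' m (by omega) hm' hm
      have h3 := h.comm m m' hm hm'
      linarith
    · intro m m' hm hm'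
      rw [hr, hr]
      have h2 := h.tri m 0 m' hm (by omega) hm'
      have h3 := h.comm m 0 hm (by omega)
      linarith

theorem DD_lt (n x y : ℕ) (hx : x < n) (hy : y < n) : DD (n + 1) x y = DD n x y := by
  show (if x < n ∧ y < n then DD n x y
      else if x = n ∧ y < n then row (DD n) (code n) n y
      else if y = n ∧ x < n then row (DD n) (code n) n x
      else 0) = _
  rw [if_pos ⟨hx, hy⟩]

theorem DD_left (n y : ℕ) (hy : y < n) : DD (n + 1) n y = row (DD n) (code n) n y := by
  show (if n < n ∧ y < n then DD n n y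
      else if n = n ∧ y < n then row (DD n) (code n) n y
      else if y = n ∧ n < n then row (DD n) (code n) n n
      else 0) = _
  rw [if_neg (by omega), if_pos ⟨rfl, hy⟩]

theorem DD_right (n x : ℕ) (hx : x < n) : DD (n + 1) x n = row (DD n) (code n) n x := by
  show (if x < n ∧ n < n then DD n x n
      else if x = n ∧ n < n then row (DD n) (code n) n n
      else if n = n ∧ x < n then row (DD n) (code n) n x
      else 0) = _
  rw [if_neg (by omega), if_neg (by omega), if_pos ⟨rfl, hx⟩]

theorem DD_self (n : ℕ) : DD (n + 1) n n = 0 := by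
  show (if n < n ∧ n < n then DD n n n
      else if n = n ∧ n < n then row (DD n) (code n) n n
      else if n = n ∧ n < n then row (DD n) (code n) n n
      else 0) = _
  rw [if_neg (by omega), if_neg (by omega), if_neg (by omega)]

theorem isM_DD (n : ℕ) : IsM (DD n) n := by
  induction n with
  | zero => exact ⟨by intro x y h; omega, by intro x h; omega, by intro x y h; omega,
      by intro x y z h; omega⟩
  | succ n ih =>
    obtain ⟨r1, r2, r3, _⟩ := row_spec (DD n) n ih (code n)
    have key : ∀ x, x < n + 1 → x < n ∨ x = n := by intro x hx; omega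
    refine ⟨?_, ?_, ?_, ?_⟩
    · intro x y hx hy
      rcases key x hx with hx | rfl <;> rcases key y hy with hy | rfl
      · rw [DD_lt _ _ _ hx hy, DD_lt _ _ _ hy hx, ih.comm x y hx hy]
      · rw [DD_right _ _ hx, DD_left _ _ hx]
      · rw [DD_right _ _ hy, DD_left _ _ hy]
      · rfl
    · intro x hx
      rcases key x hx with hx | rfl
      · rw [DD_lt _ _ _ hx hx, ih.self x hx]
      · exact DD_self _
    · intro x y hx hy h0
      rcases key x hx with hx | rfl <;> rcases key y hy with hy | rfl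
      · rw [DD_lt _ _ _ hx hy] at h0
        exact ih.sep x y hx hy h0
      · rw [DD_right _ _ hx] at h0
        have := r1 x hx; linarith
      · rw [DD_left _ _ hy] at h0
        have := r1 y hy; linarith
      · rfl
    · intro x y z hx hy hz
      rcases key x hx with hx | rfl <;> rcases key y hy with hy | rfl <;>
        rcases key z hz with hz | rfl
      · rw [DD_lt _ _ _ hx hy, DD_lt _ _ _ hy hz, DD_lt _ _ _ hx hz]
        exact ih.tri x y z hx hy hz
      · rw [DD_lt _ _ _ hx hy, DD_right _ _ hy, DD_right _ _ hx]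
        have := r2 x y hx hy; linarith
      · rw [DD_right _ _ hx, DD_left _ _ hz, DD_lt _ _ _ hx hz]
        exact r3 x z hx hz
      · rw [DD_self, DD_right _ _ hx]; linarith
      · rw [DD_left _ _ hz, DD_left _ _ hy, DD_lt _ _ _ hy hz]
        have h1 := r2 z y hz hy
        have h2 := ih.comm z y hz hy
        linarith
      · rw [DD_self, DD_left _ _ hy, DD_right _ _ hy]
        have := r1 y hy
        linarith
      · rw [DD_self, DD_left _ _ hz]; linarith
      · simp [DD_self]

/-- the metric on `ℕ` -/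
noncomputable def dd (x y : ℕ) : ℚ := DD (max x y + 1) x y

theorem DD_eq (n x y : ℕ) (hx : x < n) (hy : y < n) : DD n x y = dd x y := by
  induction n with
  | zero => omega
  | succ n ih =>
    by_cases h : x < n ∧ y < n
    · rw [DD_lt _ _ _ h.1 h.2]; exact ih h.1 h.2
    · have : max x y = n := by
        rcases le_total x y with h' | h'
        · rw [max_eq_right h']; by_contra hne
          exact h ⟨by omega, by omega⟩
        · rw [max_eq_left h']; by_contra hne
          exact h ⟨by omega, by omega⟩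
      unfold dd; rw [this]

theorem dd_comm (x y : ℕ) : dd x y = dd y x := by
  have := (isM_DD (max x y + 1)).comm x y (by omega) (by omega)
  rwa [DD_eq _ _ _ (by omega) (by omega), DD_eq _ _ _ (by omega) (by omega)] at this

theorem dd_self (x : ℕ) : dd x x = 0 := by
  have := (isM_DD (x + 1)).self x (by omega)
  rwa [DD_eq _ _ _ (by omega) (by omega)] at this

theorem dd_sep (x y : ℕ) (h : dd x y = 0) : x = y := by
  rw [← DD_eq (max x y + 1) _ _ (by omega) (by omega)] at h
  exact (isM_DD (max x y + 1)).sep x y (by omega) (by omega) h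

theorem dd_tri (x y z : ℕ) : dd x z ≤ dd x y + dd y z := by
  have := (isM_DD (x + y + z + 1)).tri x y z (by omega) (by omega) (by omega)
  rwa [DD_eq _ _ _ (by omega) (by omega), DD_eq _ _ _ (by omega) (by omega),
    DD_eq _ _ _ (by omega) (by omega)] at this

theorem dd_nonneg (x y : ℕ) : 0 ≤ dd x y := by
  have h1 := dd_tri x y x
  have h2 := dd_comm x y
  have h3 := dd_self x
  linarith

theorem dd_ext (L : List (ℕ × ℚ)) (hK : Kat dd L) : ∃ z, ∀ p ∈ L, dd z p.1 = p.2 := by
  classical
  by_cases hL : L = []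
  · subst hL; exact ⟨0, by simp⟩
  by_cases h0 : ∃ p ∈ L, p.2 = 0
  · obtain ⟨p, hp, hp0⟩ := h0
    refine ⟨p.1, fun q hq => ?_⟩
    have h1 := (hK p hp q hq).1
    have h2 := (hK q hq p hp).2
    have h3 := dd_comm p.1 q.1
    linarith
  push Not at h0
  have hpos : ∀ p ∈ L, 0 < p.2 := by
    intro p hp
    have h1 := (hK p hp p hp).1
    rw [dd_self] at h1
    have h2 := h0 p hp
    exact lt_of_le_of_ne (by linarith) (Ne.symm h2)
  -- a bound for the points
  obtain ⟨b, hb⟩ : ∃ b, ∀ p ∈ L, p.1 < b := by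
    refine ⟨(L.map (fun p => p.1)).sum + 1, fun p hp => ?_⟩
    have := List.single_le_sum (l := L.map (fun p => p.1)) (by simp) p.1
      (List.mem_map.2 ⟨p, hp, rfl⟩)
    omega
  let n := Nat.pair b (Encodable.encode L)
  have hbn : b ≤ n := Nat.left_le_pair _ _
  have hcode : code n = L := by
    unfold code
    simp [n]
  have hDn : ∀ x y, x < n → y < n → DD n x y = dd x y := fun x y => DD_eq n x y
  have hval : Valid (DD n) (code n) n := by
    rw [hcode]
    refine ⟨hL, fun p hp => ⟨lt_of_lt_of_le (hb p hp) hbn, hpos p hp⟩, ?_⟩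
    intro p hp q hq
    rw [hDn _ _ (lt_of_lt_of_le (hb p hp) hbn) (lt_of_lt_of_le (hb q hq) hbn)]
    exact hK p hp q hq
  refine ⟨n, fun p hp => ?_⟩
  have hpn := lt_of_lt_of_le (hb p hp) hbn
  have h1 := (row_spec (DD n) n (isM_DD n) (code n)).2.2.2 hval p (by rw [hcode]; exact hp)
  rw [← DD_left _ _ hpn, DD_eq _ _ _ (by omega) (by omega)] at h1
  exact h1

end Pool.Agent.H731R3.QU
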